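import Mathlib

/-!
# Weil-Deligne representations of motives at a prime `p`: definitions

Let `W` be the Weil group of `ℚ_p` and let `F` be a geometric Frobenius element. By the monodromy
theorem of Grothendieck an `ℓ`-adic representation of the Galois group of `ℚ_p`, `ℓ ≠ p`, is the
same as a representation `ρ` of `W` for which an open subgroup of the inertia group `I` acts
trivially, with a nilpotent endomorphism `N` such that `N ρ(w) = p^(deg w) ρ(w) N` (Weil-Deligne
representation); the elements which are invariant under the inertia group are the elements which are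
invariant under `ρ(I)` and killed by `N`, and Frobenius acts on them as `ρ(F)`.
-/

set_option autoImplicit false

open Polynomial

namespace Pool.Agent.TH121.WD

/-- The Weil group `W` of `ℚ_p`, with its degree map and a geometric Frobenius element. -/
structure WeilGroup (W : Type) [Group W] [TopologicalSpace W] where
  /-- the prime number `p` -/
  p : ℕ
  /-- the degree, `1` for the geometric Frobenius elements; its kernel is the inertia group -/
  deg : W →* Multiplicative ℤ
  /-- a geometric Frobenius element -/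
  F : W
  one_lt_p : 1 < p
  deg_F : deg F = Multiplicative.ofAdd 1
  isOpen_inertia : IsOpen (deg.ker : Set W)
  isCompact_inertia : IsCompact (deg.ker : Set W)

/-- A set `Obj` of pairs `(M, i)`, where `M` is a Chow motive over `ℚ` and `i` is an integer, with the
Weil-Deligne representations at `p` of their realisations `V_ℓ^i(M)` over `K ℓ = ℚ_ℓ`, for `ℓ` in the
set `Λ` of the prime numbers `ℓ ≠ p`. -/
structure Realisations (W : Type) [Group W] (Λ : Type) (K : Λ → Type) [∀ ℓ, Field (K ℓ)] where
  /-- the pairs `(M, i)` -/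
  Obj : Type
  /-- the `ℓ`-adic realisation -/
  V : Obj → Λ → Type
  [grp : ∀ X ℓ, AddCommGroup (V X ℓ)]
  [mod : ∀ X ℓ, Module (K ℓ) (V X ℓ)]
  /-- the action of the Weil group -/
  ρ : ∀ X ℓ, W →* Module.End (K ℓ) (V X ℓ)
  /-- the monodromy operator -/
  N : ∀ X ℓ, Module.End (K ℓ) (V X ℓ)

attribute [instance] Realisations.grp Realisations.mod

section matrices

variable {K V : Type} [Field K] [AddCommGroup V] [Module K V]

/-- `A` is the matrix of the endomorphism `f` of `V` on the subspace `S`, for some basis. -/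
def IsMatrixOn (S : Submodule K V) (f : Module.End K V) {n : ℕ} (A : Matrix (Fin n) (Fin n) K) :
    Prop :=
  ∃ b : Module.Basis (Fin n) K S, ∀ j, f (b j) = ∑ i, A i j • (b i : V)

/-- The trace of `f` on the subspace `S` is `a`. -/
def HasTrace (S : Submodule K V) (f : Module.End K V) (a : K) : Prop :=
  ∃ (n : ℕ) (A : Matrix (Fin n) (Fin n) K), IsMatrixOn S f A ∧ A.trace = a

/-- The polynomial `det(1 - T f)`, for `f` on the subspace `S`, is `P`. -/
def HasFactor (S : Submodule K V) (f : Module.End K V) (P : K[X]) : Prop :=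
  ∃ (n : ℕ) (A : Matrix (Fin n) (Fin n) K), IsMatrixOn S f A ∧
    (1 - (X : K[X]) • A.map C).det = P

end matrices

namespace Realisations

variable {W : Type} [Group W] {Λ : Type} {K : Λ → Type} [∀ ℓ, Field (K ℓ)]
  (R : Realisations W Λ K)

/-- `w v`, for `w` in the Weil group. -/
def act {X : R.Obj} {ℓ : Λ} (w : W) (v : R.V X ℓ) : R.V X ℓ := R.ρ X ℓ w v

/-- `N v`. -/
def nil {X : R.Obj} {ℓ : Λ} (v : R.V X ℓ) : R.V X ℓ := R.N X ℓ v

/-- The scalar multiple `c v`. -/
def sc {X : R.Obj} {ℓ : Λ} (c : K ℓ) (v : R.V X ℓ) : R.V X ℓ := c • v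

/-- The sum. -/
def add {X : R.Obj} {ℓ : Λ} (v w : R.V X ℓ) : R.V X ℓ := v + w

/-- The map `e` is linear. -/
def IsLin {X Y : R.Obj} {ℓ : Λ} {S : Type} (e : R.V Y ℓ → S → R.V X ℓ) : Prop :=
  (∀ v w s, e (R.add v w) s = R.add (e v s) (e w s)) ∧ ∀ c v s, e (R.sc c v) s = R.sc c (e v s)

end Realisations

section

variable {W : Type} [Group W] [TopologicalSpace W] (G : WeilGroup W) {Λ : Type} {K : Λ → Type}
  [∀ ℓ, Field (K ℓ)] (R : Realisations W Λ K)

/-- `v` is killed by `N` and fixed by the elements of degree zero, that is, it is invariant under the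
inertia group. -/
def IsInv {X : R.Obj} {ℓ : Λ} (v : R.V X ℓ) : Prop :=
  R.nil v = 0 ∧ ∀ h, G.deg h = 1 → R.act h v = v

variable {G R} in
theorem isInv_add {X : R.Obj} {ℓ : Λ} {v w : R.V X ℓ} (hv : IsInv G R v) (hw : IsInv G R w) :
    IsInv G R (v + w) := by
  refine ⟨?_, fun h hh => ?_⟩
  · have h1 : R.nil (v + w) = R.nil v + R.nil w := map_add _ _ _
    rw [h1, hv.1, hw.1, add_zero]
  · have h1 : R.act h (v + w) = R.act h v + R.act h w := map_add _ _ _
    rw [h1, hv.2 h hh, hw.2 h hh]

theorem isInv_zero (X : R.Obj) (ℓ : Λ) : IsInv G R (0 : R.V X ℓ) :=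
  ⟨map_zero _, fun _ _ => map_zero _⟩

variable {G R} in
theorem isInv_smul {X : R.Obj} {ℓ : Λ} (c : K ℓ) {v : R.V X ℓ} (hv : IsInv G R v) :
    IsInv G R (c • v) := by
  refine ⟨?_, fun h hh => ?_⟩
  · have h1 : R.nil (c • v) = c • R.nil v := map_smul _ _ _
    rw [h1, hv.1, smul_zero]
  · have h1 : R.act h (c • v) = c • R.act h v := map_smul _ _ _
    rw [h1, hv.2 h hh]

/-- The invariants of the inertia group in `V_ℓ^i(M)`. -/
def inv (X : R.Obj) (ℓ : Λ) : Submodule (K ℓ) (R.V X ℓ) where
  carrier := {v | IsInv G R v}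
  add_mem' := isInv_add
  zero_mem' := isInv_zero G R X ℓ
  smul_mem' := fun c _ hv => isInv_smul c hv

/-- The kernel of `N^t` in `V_ℓ^i(M)`. -/
def kerN (X : R.Obj) (ℓ : Λ) (t : ℕ) : Submodule (K ℓ) (R.V X ℓ) := LinearMap.ker (R.N X ℓ ^ t)

/-- The elements of the inertia group which act trivially on `V_ℓ^i(M)`. -/
def triv (X : R.Obj) (ℓ : Λ) : Set W := {w | G.deg w = 1 ∧ ∀ v : R.V X ℓ, R.act w v = v}

/-- The scalar `p^(deg w)`. -/
noncomputable def qd {k : Type} [Field k] (w : W) : k :=
  (G.p : k) ^ (Multiplicative.toAdd (G.deg w))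

/-- Let `E` be an elliptic curve over `ℚ` with split multiplicative reduction at `p` and let `S_t`
be the motive `Sym^t h^1(E)`, with the realisation `Sym^t H^1(E)` in degree `t`. It has a basis
`x_0, …, x_t` with `w x_k = p^(k deg w) x_k`, `N x_0 = 0` and `N x_k = x_(k-1)`. The realisation of
`M ⊗ S_t` in degree `i + t` consists of the sums `∑ v_k ⊗ x_k`, `v_k` in `V^i(M)`.
`IsSym G R t ℓ e` says: `e`, with the components `v_k`, identifies the realisation of `Y` with that
of `M ⊗ S_t`, for `X = (M, i)`. -/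
structure IsSym {X Y : R.Obj} (t : ℕ) (ℓ : Λ) (e : R.V Y ℓ → ℕ → R.V X ℓ) : Prop where
  isLin : R.IsLin e
  injective : Function.Injective e
  range : ∀ f, (∃ v, e v = f) ↔ ∀ k, t < k → f k = 0
  act : ∀ w v k, e (R.act w v) k = R.sc (qd G w ^ k) (R.act w (e v k))
  nil : ∀ v k, e (R.nil v) k = R.add (R.nil (e v k)) (e v (k + 1))

/-- Let `U` be a subgroup of the Weil group, which corresponds to the field `L ⊗ ℚ_p` for a number
field `L`. The realisation of `M ⊗ h(Spec L)` consists of the functions on `W / U` with values in that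
of `M`. `IsInd R U ℓ e` says: `e` identifies the realisation of `Y` with that of
`M ⊗ h(Spec L)`, for `X = (M, i)`. -/
structure IsInd {X Y : R.Obj} (U : Subgroup W) (ℓ : Λ) (e : R.V Y ℓ → W → R.V X ℓ) : Prop where
  isLin : R.IsLin e
  injective : Function.Injective e
  range : ∀ f, (∃ v, e v = f) ↔ ∀ g, ∀ u ∈ U, f (g * u) = f g
  act : ∀ w v g, e (R.act w v) g = R.act w (e v (w⁻¹ * g))
  nil : ∀ v g, e (R.nil v) g = R.nil (e v g)

/-- The properties of the realisations which are used; they are known for the pairs `(M, i)` of all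
Chow motives `M` over `ℚ`. -/
structure IsMotivic : Prop where
  finite : ∀ X ℓ, Module.Finite (K ℓ) (R.V X ℓ)
  /-- an open subgroup of the inertia group acts trivially -/
  isOpen : ∀ X ℓ, IsOpen (triv G R X ℓ)
  N_act : ∀ X ℓ w (v : R.V X ℓ), R.nil (R.act w v) = R.sc (qd G w) (R.act w (R.nil v))
  /-- the twists by the motives `S_t = Sym^t h^1(E)`, see `IsSym` -/
  sym : ∀ (X : R.Obj) (t : ℕ), ∃ Y : R.Obj, ∀ ℓ,
    ∃ e : R.V Y ℓ → ℕ → R.V X ℓ, IsSym G R t ℓ e
  /-- Let `U` be an open subgroup of finite index of the Weil group (that is, `U` is open and not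
  contained in the inertia group). There is a number field `L` such that `L ⊗ ℚ_p` is the field
  which corresponds to `U`; for the twists by the motives `h(Spec L)` see `IsInd`. -/
  artin : ∀ (X : R.Obj) (U : Subgroup W), IsOpen (U : Set W) → (∃ u ∈ U, G.deg u ≠ 1) →
    ∃ Y : R.Obj, ∀ ℓ, ∃ e : R.V Y ℓ → W → R.V X ℓ, IsInd R U ℓ e

variable [∀ ℓ, CharZero (K ℓ)]

/-- **Q1 at the prime `p`**: for all `(M, i)` there is a polynomial `P` with rational coefficients
with `det(1 - T Frob_p) = P` on the invariants of the inertia group in `V_ℓ^i(M)`, for all `ℓ`. -/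
def QOne : Prop :=
  ∀ X : R.Obj, ∃ P : ℚ[X], ∀ ℓ,
    HasFactor (inv G R X ℓ) (R.ρ X ℓ G.F) (P.map (algebraMap ℚ (K ℓ)))

/-- **Compatibility of the Weil-Deligne representations**: for all `(M, i)`, all `t` and all elements
`w` of the Weil group the trace of `w` on the kernel of `N^t` in `V_ℓ^i(M)` is a rational number
which does not depend on `ℓ`. -/
def Compatible : Prop :=
  ∀ (X : R.Obj) (t : ℕ) (w : W), ∃ a : ℚ, ∀ ℓ,
    HasTrace (kerN R X ℓ t) (R.ρ X ℓ w) (a : K ℓ)

end

end Pool.Agent.TH121.WD
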