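import Pool.Agent.TH121.WD.Lin

/-!
# The invariants of inertia in the twists
-/

set_option autoImplicit false

open Polynomial Module

namespace Pool.Agent.TH121.WD

/-- the trace of the operator which acts by `f` on each component -/
theorem trace_pi {K B : Type} [Field K] [AddCommGroup B] [Module K B] [Module.Finite K B]
    (n : ℕ) (f : B →ₗ[K] B) (D : (Fin n → B) →ₗ[K] (Fin n → B)) (hD : ∀ x j, D x j = f (x j)) :
    LinearMap.trace K (Fin n → B) D = n * LinearMap.trace K B f := by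
  have h1 : D = ∑ j, (LinearMap.single K (fun _ : Fin n => B) j) ∘ₗ
      (f ∘ₗ LinearMap.proj (R := K) (φ := fun _ : Fin n => B) j) := by
    refine LinearMap.ext fun x => funext fun i => ?_
    rw [hD, LinearMap.sum_apply, Finset.sum_apply, Finset.sum_eq_single i]
    · simp
    · intro j _ hj
      simp [LinearMap.single_apply, Pi.single_apply, hj.symm]
    · simp
  rw [h1, map_sum]
  have h2 : ∀ j : Fin n, LinearMap.trace K (Fin n → B)
      ((LinearMap.single K (fun _ : Fin n => B) j) ∘ₗ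
      (f ∘ₗ LinearMap.proj (R := K) (φ := fun _ : Fin n => B) j)) = LinearMap.trace K B f := by
    intro j
    rw [LinearMap.trace_comp_comm']
    congr 1
    refine LinearMap.ext fun x => ?_
    simp
  rw [Finset.sum_congr rfl fun j _ => h2 j]
  simp

variable {W : Type} [Group W] [TopologicalSpace W] {G : WeilGroup W} {Λ : Type} {K : Λ → Type}
  [∀ ℓ, Field (K ℓ)] {R : Realisations W Λ K}

/-- the degree as an integer -/
def dg (G : WeilGroup W) (w : W) : ℤ := Multiplicative.toAdd (G.deg w)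

theorem dg_mul (v w : W) : dg G (v * w) = dg G v + dg G w := by
  unfold dg; rw [map_mul, toAdd_mul]

theorem dg_inv (w : W) : dg G w⁻¹ = - dg G w := by
  unfold dg; rw [map_inv, toAdd_inv]

theorem dg_zpow (w : W) (k : ℤ) : dg G (w ^ k) = k * dg G w := by
  unfold dg; rw [map_zpow, toAdd_zpow, smul_eq_mul]

theorem dg_F : dg G G.F = 1 := by unfold dg; rw [G.deg_F]; rfl

theorem dg_F_zpow (k : ℤ) : dg G (G.F ^ k) = k := by rw [dg_zpow, dg_F, mul_one]

theorem deg_eq_one_iff (w : W) : G.deg w = 1 ↔ dg G w = 0 := by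
  unfold dg
  exact ⟨fun h => by rw [h]; rfl, fun h => h⟩

theorem qd_eq {k : Type} [Field k] (w : W) : (qd G w : k) = (G.p : k) ^ dg G w := rfl

variable (hR : Motivic G R)

include hR in
theorem N_pow_ρ (X : R.Obj) (ℓ : Λ) (w : W) (t : ℕ) (v : R.V X ℓ) :
    (R.N X ℓ ^ t) (R.ρ X ℓ w v) = (qd G w : K ℓ) ^ t • R.ρ X ℓ w ((R.N X ℓ ^ t) v) := by
  induction t with
  | zero => simp
  | succ t ih =>
    rw [pow_succ', Module.End.mul_apply, ih, map_smul, hR.N_ρ, smul_smul, ← pow_succ,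
      Module.End.mul_apply]

include hR in
theorem ker_stable (X : R.Obj) (ℓ : Λ) (t : ℕ) (w : W) :
    ∀ v ∈ LinearMap.ker (R.N X ℓ ^ t), R.ρ X ℓ w v ∈ LinearMap.ker (R.N X ℓ ^ t) := by
  intro v hv
  rw [LinearMap.mem_ker] at hv ⊢
  rw [N_pow_ρ hR, hv, map_zero, smul_zero]

include hR in
theorem inv_stable (X : R.Obj) (ℓ : Λ) (w : W) :
    ∀ v ∈ inv' G R X ℓ, R.ρ X ℓ w v ∈ inv' G R X ℓ := by
  rintro v ⟨h1, h2⟩
  refine ⟨by rw [hR.N_ρ, h1, map_zero, smul_zero], fun h hh => ?_⟩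
  have h3 : R.ρ X ℓ (w⁻¹ * h * w) v = v := by
    refine h2 _ ?_
    rw [map_mul, map_mul, hh, map_inv, mul_one, inv_mul_cancel]
  have h4 : h * w = w * (w⁻¹ * h * w) := by group
  rw [← Module.End.mul_apply, ← map_mul, h4, map_mul, Module.End.mul_apply, h3]

/-- the trace on the kernel of `N^t` -/
noncomputable def trK (hR : Motivic G R) (X : R.Obj) (ℓ : Λ) (t : ℕ) (w : W) : K ℓ :=
  LinearMap.trace (K ℓ) _ ((R.ρ X ℓ w).restrict (ker_stable hR X ℓ t w))

/-- the traces of the powers of Frobenius on the invariants of inertia -/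
noncomputable def trI (hR : Motivic G R) (X : R.Obj) (ℓ : Λ) (m : ℕ) : K ℓ :=
  LinearMap.trace (K ℓ) _
    (((R.ρ X ℓ G.F).restrict (inv_stable hR X ℓ G.F) : Module.End (K ℓ) (inv' G R X ℓ)) ^ m)

include hR in
theorem hasTrace_trK (X : R.Obj) (ℓ : Λ) (t : ℕ) (w : W) (a : K ℓ) :
    HasTrace (LinearMap.ker (R.N X ℓ ^ t)) (R.ρ X ℓ w) a ↔ trK hR X ℓ t w = a := by
  have := hR.finite X ℓ
  exact hasTrace_iff (ker_stable hR X ℓ t w) a

theorem ρ_mul (X : R.Obj) (ℓ : Λ) (v w : W) (x : R.V X ℓ) :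
    R.ρ X ℓ v (R.ρ X ℓ w x) = R.ρ X ℓ (v * w) x := by
  rw [map_mul, Module.End.mul_apply]

/-- The kernel of `N` on the twist by `S_t` is the kernel of `N^(t+1)`. -/
theorem trK_sym {X Y : R.Obj} {t : ℕ} {ℓ : Λ} {e : R.V Y ℓ →ₗ[K ℓ] (ℕ → R.V X ℓ)}
    (h1 : Function.Injective e) (h2 : ∀ f, (∃ v, e v = f) ↔ ∀ k, t < k → f k = 0)
    (h3 : ∀ w v k, e (R.ρ Y ℓ w v) k = (qd G w : K ℓ) ^ k • R.ρ X ℓ w (e v k))
    (h4 : ∀ v k, e (R.N Y ℓ v) k = R.N X ℓ (e v k) + e v (k + 1)) (w : W) :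
    trK hR Y ℓ 1 w = trK hR X ℓ (t + 1) w := by
  have hk : ∀ v ∈ LinearMap.ker (R.N Y ℓ ^ 1), ∀ k, e v k = ((-R.N X ℓ) ^ k) (e v 0) := by
    intro v hv k
    rw [LinearMap.mem_ker, pow_one] at hv
    induction k with
    | zero => simp
    | succ k ih =>
      have h5 := h4 v k
      rw [hv, map_zero, Pi.zero_apply] at h5
      have h6 : e v (k + 1) = -(R.N X ℓ (e v k)) := (neg_eq_of_add_eq_zero_right h5.symm).symm
      rw [h6, pow_succ', Module.End.mul_apply, LinearMap.neg_apply, ← ih]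
  have hneg : ∀ (k : ℕ) (x : R.V X ℓ), ((-R.N X ℓ) ^ k) x = 0 ↔ (R.N X ℓ ^ k) x = 0 := by
    intro k x
    rw [neg_pow, Module.End.mul_apply]
    rcases Nat.even_or_odd k with h | h
    · rw [h.neg_one_pow]; simp
    · rw [h.neg_one_pow]; simp
  have hker : ∀ v ∈ LinearMap.ker (R.N Y ℓ ^ 1), e v 0 ∈ LinearMap.ker (R.N X ℓ ^ (t + 1)) := by
    intro v hv
    rw [LinearMap.mem_ker, ← hneg, ← hk v hv]
    exact (h2 _).1 ⟨v, rfl⟩ (t + 1) (Nat.lt_succ_self t)
  let θ : LinearMap.ker (R.N Y ℓ ^ 1) →ₗ[K ℓ] LinearMap.ker (R.N X ℓ ^ (t + 1)) :=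
    { toFun := fun v => ⟨e v 0, hker v v.2⟩
      map_add' := fun v w => by
        apply Subtype.ext
        change e (v + w : R.V Y ℓ) 0 = e v 0 + e w 0
        rw [map_add, Pi.add_apply]
      map_smul' := fun c v => by
        apply Subtype.ext
        change e (c • (v : R.V Y ℓ)) 0 = c • e v 0
        rw [map_smul, Pi.smul_apply] }
  have hθ : Function.Bijective θ := by
    constructor
    · rw [← LinearMap.ker_eq_bot, LinearMap.ker_eq_bot']
      intro v hv
      have h5 : e v 0 = 0 := congrArg Subtype.val hv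
      apply Subtype.ext
      apply h1
      rw [Submodule.coe_zero, map_zero]
      funext k
      rw [hk v v.2, h5, map_zero]
      rfl
    · intro x
      obtain ⟨v, hv⟩ := (h2 fun k => ((-R.N X ℓ) ^ k) (x : R.V X ℓ)).2 (by
        intro k hk'
        rw [hneg]
        obtain ⟨i, rfl⟩ : ∃ i, k = i + (t + 1) := ⟨k - (t + 1), by omega⟩
        rw [pow_add, Module.End.mul_apply, LinearMap.mem_ker.1 x.2, map_zero])
      have hNv : R.N Y ℓ v = 0 := by
        apply h1
        rw [map_zero]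
        funext k
        have h5 : ((-R.N X ℓ) ^ (k + 1)) (x : R.V X ℓ) =
            -(R.N X ℓ (((-R.N X ℓ) ^ k) (x : R.V X ℓ))) := by
          rw [pow_succ' (-R.N X ℓ) k, Module.End.mul_apply, LinearMap.neg_apply]
        rw [h4, hv]
        change R.N X ℓ (((-R.N X ℓ) ^ k) (x : R.V X ℓ)) +
          ((-R.N X ℓ) ^ (k + 1)) (x : R.V X ℓ) = 0
        rw [h5, add_neg_cancel]
      refine ⟨⟨v, by rw [LinearMap.mem_ker, pow_one, hNv]⟩, Subtype.ext ?_⟩
      change e v 0 = x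
      rw [hv]
      change ((-R.N X ℓ) ^ 0) (x : R.V X ℓ) = x
      rw [pow_zero (-R.N X ℓ), Module.End.one_apply]
  let Θ := LinearEquiv.ofBijective θ hθ
  have h5 : Θ.conj ((R.ρ Y ℓ w).restrict (ker_stable hR Y ℓ 1 w)) =
      (R.ρ X ℓ w).restrict (ker_stable hR X ℓ (t + 1) w) := by
    refine LinearMap.ext fun x => ?_
    obtain ⟨v, rfl⟩ := Θ.surjective x
    rw [LinearEquiv.conj_apply_apply, LinearEquiv.symm_apply_apply]
    apply Subtype.ext
    change e (R.ρ Y ℓ w v) 0 = R.ρ X ℓ w (e v 0)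
    rw [h3, pow_zero, one_smul]
  unfold trK
  rw [← h5, LinearMap.trace_conj']

/-- The traces on the invariants in an induced representation. -/
theorem trI_artin {X Y : R.Obj} {U J : Subgroup W} {ℓ : Λ} {e : R.V Y ℓ →ₗ[K ℓ] (W → R.V X ℓ)}
    (h1 : Function.Injective e) (h2 : ∀ f, (∃ v, e v = f) ↔ ∀ g, ∀ u ∈ U, f (g * u) = f g)
    (h3 : ∀ w v g, e (R.ρ Y ℓ w v) g = R.ρ X ℓ w (e v (w⁻¹ * g)))
    (h4 : ∀ v g, e (R.N Y ℓ v) g = R.N X ℓ (e v g)) {n : ℕ} {w : W} (hn : 0 < n)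
    (hw : dg G w = n) (hJ : ∀ g, ∀ c ∈ J, g⁻¹ * c * g ∈ J) (hJ0 : ∀ c ∈ J, dg G c = 0)
    (hJ1 : ∀ c ∈ J, R.ρ X ℓ c = 1) (hU : U = J ⊔ Subgroup.zpowers w) :
    trI hR Y ℓ n = n * trK hR X ℓ 1 w := by
  have := hR.finite X ℓ
  have hwU : w ∈ U := by
    rw [hU]; exact Subgroup.mem_sup_right (Subgroup.mem_zpowers w)
  have hwk : ∀ k : ℤ, w ^ k ∈ U := fun k => U.zpow_mem hwU k
  -- invariance under `U`
  have hinvU : ∀ f : W → R.V X ℓ, (∀ g, f (g * w) = f g) → (∀ g, ∀ c ∈ J, f (g * c) = f g) →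
      ∀ g, ∀ u ∈ U, f (g * u) = f g := by
    intro f hf1 hf2
    let S : Subgroup W :=
      { carrier := {u | ∀ g, f (g * u) = f g}
        mul_mem' := by
          intro a b ha hb g
          rw [← mul_assoc, hb, ha]
        one_mem' := fun g => by rw [mul_one]
        inv_mem' := by
          intro a ha g
          rw [← ha (g * a⁻¹), inv_mul_cancel_right] }
    have hS : U ≤ S := by
      rw [hU, sup_le_iff, Subgroup.zpowers_le]
      exact ⟨fun c hc g => hf2 g c hc, hf1⟩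
    exact fun g u hu => hS hu g
  -- the values at elements of `I g`
  have hI : ∀ v ∈ inv' G R Y ℓ, ∀ h g, dg G h = 0 → e v (h * g) = R.ρ X ℓ h (e v g) := by
    intro v hv h g hh
    have h5 := hv.2 h ((deg_eq_one_iff h).2 hh)
    have h6 := h3 h v (h * g)
    rw [h5, inv_mul_cancel_left] at h6
    exact h6
  have hN : ∀ v ∈ inv' G R Y ℓ, ∀ g, R.N X ℓ (e v g) = 0 := by
    intro v hv g
    rw [← h4, hv.1, map_zero]
    rfl
  have hright : ∀ (v : R.V Y ℓ) (g : W) (k : ℤ), e v (g * w ^ k) = e v g :=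
    fun v g k => (h2 _).1 ⟨v, rfl⟩ g _ (hwk k)
  let B := LinearMap.ker (R.N X ℓ ^ 1)
  let θ : inv' G R Y ℓ →ₗ[K ℓ] (Fin n → B) :=
    { toFun := fun v j => ⟨R.ρ X ℓ (G.F ^ (-(j : ℤ))) (e v (G.F ^ (j : ℤ))),
        ker_stable hR X ℓ 1 _ _ (by rw [LinearMap.mem_ker, pow_one, hN v v.2])⟩
      map_add' := fun v w => by
        funext j
        apply Subtype.ext
        change R.ρ X ℓ _ (e (v + w : R.V Y ℓ) _) = R.ρ X ℓ _ (e v _) + R.ρ X ℓ _ (e w _)
        rw [map_add, Pi.add_apply, map_add]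
      map_smul' := fun c v => by
        funext j
        apply Subtype.ext
        change R.ρ X ℓ _ (e (c • (v : R.V Y ℓ)) _) = c • R.ρ X ℓ _ (e v _)
        rw [map_smul, Pi.smul_apply, map_smul] }
  have hθ : Function.Bijective θ := by
    constructor
    · rw [← LinearMap.ker_eq_bot, LinearMap.ker_eq_bot']
      intro v hv
      apply Subtype.ext
      apply h1
      rw [Submodule.coe_zero, map_zero]
      funext g
      have hnz : (n : ℤ) ≠ 0 := by omega
      have hmod := Int.emod_add_mul_ediv (dg G g) n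
      have hm0 := Int.emod_nonneg (dg G g) hnz
      have hm1 := Int.emod_lt_of_pos (dg G g) (by omega : (0 : ℤ) < n)
      obtain ⟨j, hj⟩ := Int.eq_ofNat_of_zero_le hm0
      have hjn : j < n := by omega
      have h5 : R.ρ X ℓ (G.F ^ (-(j : ℤ))) (e v (G.F ^ (j : ℤ))) = 0 :=
        congrArg Subtype.val (congrFun hv ⟨j, hjn⟩)
      have h6 : e v (G.F ^ (j : ℤ)) = 0 := by
        have h7 := congrArg (R.ρ X ℓ (G.F ^ (j : ℤ))) h5
        rw [ρ_mul, ← zpow_add, add_neg_cancel, zpow_zero, map_one, map_zero] at h7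
        exact h7
      have h7 : g = (g * w ^ (-(dg G g / n)) * G.F ^ (-(j : ℤ))) * G.F ^ (j : ℤ) *
          w ^ (dg G g / n) := by group
      rw [h7, hright, hI v v.2, h6, map_zero]
      · rfl
      · rw [dg_mul, dg_mul, dg_zpow, dg_F_zpow, hw]
        rw [hj] at hmod
        linarith
    · intro b
      -- the function with the given values
      let f : W → R.V X ℓ := fun g =>
        R.ρ X ℓ (g * w ^ (-(dg G g / n))) (b ⟨(dg G g % n).toNat, by
          have h5 := Int.emod_nonneg (dg G g) (by omega : (n : ℤ) ≠ 0)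
          have h6 := Int.emod_lt_of_pos (dg G g) (by omega : (0 : ℤ) < n)
          omega⟩ : B)
      have hfd : ∀ g g' : W, ∀ k : ℤ, dg G g' = dg G g + n * k → ∀ x : W,
          x = g' * w ^ (-(dg G g / n + k)) →
          f g' = R.ρ X ℓ x (b ⟨(dg G g % n).toNat, by
          have h5 := Int.emod_nonneg (dg G g) (by omega : (n : ℤ) ≠ 0)
          have h6 := Int.emod_lt_of_pos (dg G g) (by omega : (0 : ℤ) < n)
          omega⟩ : B) := by
        rintro g g' k hk x rfl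
        have h5 : dg G g' / n = dg G g / n + k := by
          rw [hk, Int.add_mul_ediv_left _ _ (by omega : (n : ℤ) ≠ 0)]
        have h6 : dg G g' % n = dg G g % n := by
          rw [hk, Int.add_mul_emod_self_left]
        simp only [f, h5, h6]
      obtain ⟨v, hv⟩ := (h2 f).2 (hinvU f (by
        intro g
        have h5 := hfd g (g * w) 1 (by rw [dg_mul, hw]; ring) (g * w ^ (-(dg G g / n))) (by
          rw [show -(dg G g / n + 1) = -1 + -(dg G g / n) by ring, zpow_add, zpow_neg_one,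
            mul_assoc, mul_inv_cancel_left])
        rw [h5]) (by
        intro g c hc
        have h5 := hfd g (g * c) 0 (by rw [dg_mul, hJ0 c hc]; ring)
          (g * w ^ (-(dg G g / n)) * ((w ^ (-(dg G g / n)))⁻¹ * c * w ^ (-(dg G g / n)))) (by
          rw [add_zero]; group)
        rw [h5, map_mul, Module.End.mul_apply, hJ1 _ (hJ _ c hc), Module.End.one_apply]))
      have hfN : ∀ g, R.N X ℓ (f g) = 0 := by
        intro g
        have h5 := ker_stable hR X ℓ 1 (g * w ^ (-(dg G g / n))) _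
          (b ⟨(dg G g % n).toNat, by
          have h5 := Int.emod_nonneg (dg G g) (by omega : (n : ℤ) ≠ 0)
          have h6 := Int.emod_lt_of_pos (dg G g) (by omega : (0 : ℤ) < n)
          omega⟩).2
        rwa [LinearMap.mem_ker, pow_one] at h5
      have hfI : ∀ h g, dg G h = 0 → f (h * g) = R.ρ X ℓ h (f g) := by
        intro h g hh
        have h5 := hfd g (h * g) 0 (by rw [dg_mul, hh]; ring) (h * (g * w ^ (-(dg G g / n)))) (by
          rw [add_zero, mul_assoc])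
        rw [h5, map_mul, Module.End.mul_apply]
      have hvinv : v ∈ inv' G R Y ℓ := by
        refine ⟨?_, fun h hh => ?_⟩
        · apply h1
          rw [map_zero]
          funext g
          rw [h4, hv, hfN]
          rfl
        · apply h1
          funext g
          have hh' := (deg_eq_one_iff h).1 hh
          rw [h3, hv, ← hfI h _ hh', mul_inv_cancel_left]
      refine ⟨⟨v, hvinv⟩, ?_⟩
      funext j
      apply Subtype.ext
      change R.ρ X ℓ (G.F ^ (-(j : ℤ))) (e v (G.F ^ (j : ℤ))) = b j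
      rw [hv]
      have h5 : dg G (G.F ^ (j : ℤ)) = (j : ℤ) := dg_F_zpow _
      have h6 : (j : ℤ) / n = 0 := Int.ediv_eq_zero_of_lt (by omega) (by exact_mod_cast j.2)
      have h7 : (j : ℤ) % n = j := Int.emod_eq_of_lt (by omega) (by exact_mod_cast j.2)
      simp only [f, h5, h6, h7, neg_zero, zpow_zero, mul_one, Int.toNat_natCast, Fin.eta]
      rw [ρ_mul, ← zpow_add, neg_add_cancel, zpow_zero, map_one, Module.End.one_apply]
  let Θ := LinearEquiv.ofBijective θ hθ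
  let D : (Fin n → B) →ₗ[K ℓ] (Fin n → B) := Θ.conj
    (((R.ρ Y ℓ G.F).restrict (inv_stable hR Y ℓ G.F) : Module.End (K ℓ) (inv' G R Y ℓ)) ^ n)
  have hD : ∀ x j, D x j = (R.ρ X ℓ w).restrict (ker_stable hR X ℓ 1 w) (x j) := by
    intro x j
    obtain ⟨v, rfl⟩ := Θ.surjective x
    change Θ ((((R.ρ Y ℓ G.F).restrict (inv_stable hR Y ℓ G.F) :
      Module.End (K ℓ) (inv' G R Y ℓ)) ^ n) (Θ.symm (Θ v))) j = _
    rw [LinearEquiv.symm_apply_apply]
    apply Subtype.ext
    have h5 : ((((R.ρ Y ℓ G.F).restrict (inv_stable hR Y ℓ G.F) :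
      Module.End (K ℓ) (inv' G R Y ℓ)) ^ n) v : R.V Y ℓ) = R.ρ Y ℓ (G.F ^ (n : ℤ)) v := by
      rw [zpow_natCast, map_pow, Module.End.pow_restrict]
      rfl
    change R.ρ X ℓ (G.F ^ (-(j : ℤ))) (e (((((R.ρ Y ℓ G.F).restrict (inv_stable hR Y ℓ G.F) :
      Module.End (K ℓ) (inv' G R Y ℓ)) ^ n) v : inv' G R Y ℓ) : R.V Y ℓ) (G.F ^ (j : ℤ))) =
      R.ρ X ℓ w (R.ρ X ℓ (G.F ^ (-(j : ℤ))) (e v (G.F ^ (j : ℤ))))
    rw [h5, h3]
    have h6 : e (v : R.V Y ℓ) ((G.F ^ (n : ℤ))⁻¹ * G.F ^ (j : ℤ)) =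
        R.ρ X ℓ ((G.F ^ (n : ℤ))⁻¹ * G.F ^ (j : ℤ) * w * G.F ^ (-(j : ℤ)))
          (e v (G.F ^ (j : ℤ))) := by
      rw [← hI v v.2]
      · have h7 : (G.F ^ (n : ℤ))⁻¹ * G.F ^ (j : ℤ) * w * G.F ^ (-(j : ℤ)) * G.F ^ (j : ℤ) =
            (G.F ^ (n : ℤ))⁻¹ * G.F ^ (j : ℤ) * w ^ (1 : ℤ) := by group
        rw [h7, hright]
      · rw [dg_mul, dg_mul, dg_mul, dg_inv, dg_F_zpow, dg_F_zpow, dg_F_zpow, hw]
        ring
    rw [h6, ρ_mul, ρ_mul, ρ_mul]
    congr 2
    group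
  have h5 := trace_pi n _ D hD
  have h6 : trI hR Y ℓ n = LinearMap.trace (K ℓ) (Fin n → B) D := by
    unfold trI
    exact (LinearMap.trace_conj' _ Θ).symm
  rw [h6, h5]
  rfl

end Pool.Agent.TH121.WD
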