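import Pool.Agent.TH121.WD.Props
import Pool.Agent.TH658.Eq.Newt

/-!
# Linear algebra
-/

set_option autoImplicit false

open Polynomial Module

namespace Pool.Agent.TH121.WD

section matrices

variable {K V : Type} [Field K] [AddCommGroup V] [Module K V]

theorem isMatrixOn_iff {S : Submodule K V} {f : Module.End K V} (h : ∀ v ∈ S, f v ∈ S) {n : ℕ}
    (A : Matrix (Fin n) (Fin n) K) :
    IsMatrixOn S f A ↔ ∃ b : Module.Basis (Fin n) K S, LinearMap.toMatrix b b (f.restrict h) = A := by
  unfold IsMatrixOn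
  refine exists_congr fun b => ⟨fun hb => ?_, fun hb j => ?_⟩
  · refine Matrix.ext fun i j => ?_
    rw [LinearMap.toMatrix_apply]
    have h1 : (f.restrict h) (b j) = ∑ i, A i j • b i := by
      apply Subtype.ext
      rw [LinearMap.coe_restrict_apply, hb j]
      simp
    rw [h1, map_sum]
    simp [Finsupp.single_apply]
  · have h1 : (f.restrict h) (b j) = ∑ i, A i j • b i := by
      rw [← hb]
      conv_lhs => rw [← b.sum_repr ((f.restrict h) (b j))]
      refine Finset.sum_congr rfl fun i _ => ?_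
      rw [LinearMap.toMatrix_apply]
    have h2 := congrArg Subtype.val h1
    rw [LinearMap.coe_restrict_apply] at h2
    rw [h2]
    simp

theorem hasTrace_iff [Module.Finite K V] {S : Submodule K V} {f : Module.End K V}
    (h : ∀ v ∈ S, f v ∈ S) (a : K) :
    HasTrace S f a ↔ LinearMap.trace K S (f.restrict h) = a := by
  constructor
  · rintro ⟨n, A, hA, rfl⟩
    obtain ⟨b, rfl⟩ := (isMatrixOn_iff h A).1 hA
    exact LinearMap.trace_eq_matrix_trace K b _
  · intro ha
    refine ⟨_, _, (isMatrixOn_iff h _).2 ⟨Module.finBasis K S, rfl⟩, ?_⟩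
    rw [← ha]
    exact (LinearMap.trace_eq_matrix_trace K _ _).symm

theorem restrict_pow {S : Submodule K V} {f : Module.End K V} (h : ∀ v ∈ S, f v ∈ S) (m : ℕ)
    (h' : ∀ v ∈ S, (f ^ m) v ∈ S) :
    (f.restrict h : Module.End K S) ^ m = (f ^ m).restrict h' := by
  rw [Module.End.pow_restrict]

theorem hasFactor_traces {S : Submodule K V} {f : Module.End K V}
    (h : ∀ v ∈ S, f v ∈ S) {P : K[X]} (hP : HasFactor S f P) :
    ∃ (n : ℕ) (A : Matrix (Fin n) (Fin n) K), A.charpolyRev = P ∧
      ∀ m, (A ^ m).trace = LinearMap.trace K S ((f.restrict h : Module.End K S) ^ m) := by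
  obtain ⟨n, A, hA, rfl⟩ := hP
  obtain ⟨b, rfl⟩ := (isMatrixOn_iff h A).1 hA
  refine ⟨n, _, rfl, fun m => ?_⟩
  rw [LinearMap.trace_eq_matrix_trace K b, LinearMap.toMatrix_pow]

theorem hasFactor_of_finite [Module.Finite K V] {S : Submodule K V} {f : Module.End K V}
    (h : ∀ v ∈ S, f v ∈ S) :
    ∃ (n : ℕ) (A : Matrix (Fin n) (Fin n) K), IsMatrixOn S f A ∧ HasFactor S f A.charpolyRev ∧
      (∀ m, (A ^ m).trace = LinearMap.trace K S ((f.restrict h : Module.End K S) ^ m)) ∧
      (Function.Injective f → A.det ≠ 0) := by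
  refine ⟨_, LinearMap.toMatrix (Module.finBasis K S) (Module.finBasis K S) (f.restrict h),
    (isMatrixOn_iff h _).2 ⟨_, rfl⟩, ⟨_, _, (isMatrixOn_iff h _).2 ⟨_, rfl⟩, rfl⟩, fun m => ?_, ?_⟩
  · rw [LinearMap.trace_eq_matrix_trace K (Module.finBasis K S), LinearMap.toMatrix_pow]
  · intro hf
    rw [LinearMap.det_toMatrix]
    have h1 : Function.Injective (f.restrict h) := by
      intro x y hxy
      have := congrArg Subtype.val hxy
      rw [LinearMap.coe_restrict_apply, LinearMap.coe_restrict_apply] at this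
      exact Subtype.ext (hf this)
    have h2 : LinearMap.ker (f.restrict h) = ⊥ := LinearMap.ker_eq_bot.2 h1
    intro h3
    have h4 := LinearMap.bot_lt_ker_of_det_eq_zero h3
    rw [h2] at h4
    exact lt_irrefl _ h4

end matrices

/-- The traces of the powers are determined by the characteristic polynomial. -/
theorem exists_trace (P : ℚ[X]) (m : ℕ) : ∃ a : ℚ, ∀ (K : Type) [Field K] [CharZero K] (n : ℕ)
    (A : Matrix (Fin n) (Fin n) K), A.charpolyRev = P.map (algebraMap ℚ K) →
    (A ^ (m + 1)).trace = (a : K) := by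
  induction m using Nat.strong_induction_on with
  | _ m ih =>
    choose! τ hτ using ih
    refine ⟨- (P.coeff (m + 1) * (m + 1)) -
      ∑ p ∈ (Finset.HasAntidiagonal.antidiagonal m).erase (0, m), P.coeff p.1 * τ p.2,
      fun K _ _ n A hA => ?_⟩
    have h1 := Pool.Agent.TH658.Eq.newton A m
    have hmem : ((0, m) : ℕ × ℕ) ∈ Finset.HasAntidiagonal.antidiagonal m := by simp
    rw [← Finset.add_sum_erase _ _ hmem] at h1
    have h0 : A.charpolyRev.coeff 0 = 1 := by
      rw [coeff_zero_eq_eval_zero, Matrix.eval_charpolyRev]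
    simp only [h0, one_mul] at h1
    have h2 : ∀ p ∈ (Finset.HasAntidiagonal.antidiagonal m).erase (0, m),
        A.charpolyRev.coeff p.1 * (A ^ (p.2 + 1)).trace = ((P.coeff p.1 * τ p.2 : ℚ) : K) := by
      intro p hp
      rw [Finset.mem_erase, Finset.HasAntidiagonal.mem_antidiagonal] at hp
      have hlt : p.2 < m := by
        rcases Nat.lt_or_ge p.2 m with h | h
        · exact h
        · exact absurd (Prod.ext (by simp; omega) (by simp; omega)) hp.1
      rw [hτ p.2 hlt K n A hA, hA, coeff_map, Rat.cast_mul, eq_ratCast]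
    rw [Finset.sum_congr rfl h2, hA, coeff_map] at h1
    have h3 : (A ^ (m + 1)).trace = - (algebraMap ℚ K (P.coeff (m + 1)) * ((m : K) + 1)) -
        ∑ p ∈ (Finset.HasAntidiagonal.antidiagonal m).erase (0, m),
          ((P.coeff p.1 * τ p.2 : ℚ) : K) := by
      rw [h1]; ring
    rw [h3, eq_ratCast]
    push_cast
    ring

/-- The characteristic polynomial is determined by the traces of the powers. -/
theorem exists_coeff (τ : ℕ → ℚ) (k : ℕ) : ∃ c : ℚ, ∀ (K : Type) [Field K] [CharZero K] (n : ℕ)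
    (A : Matrix (Fin n) (Fin n) K), (∀ m, (A ^ (m + 1)).trace = (τ m : K)) →
    A.charpolyRev.coeff k = (c : K) := by
  induction k using Nat.strong_induction_on with
  | _ k ih =>
    rcases k with - | k
    · refine ⟨1, fun K _ _ n A _ => ?_⟩
      rw [coeff_zero_eq_eval_zero, Matrix.eval_charpolyRev, Rat.cast_one]
    · choose! c hc using ih
      refine ⟨(- ∑ p ∈ Finset.HasAntidiagonal.antidiagonal k, c p.1 * τ p.2) / (k + 1),
        fun K _ _ n A hA => ?_⟩
      have h1 := Pool.Agent.TH658.Eq.newton A k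
      have h2 : ∀ p ∈ Finset.HasAntidiagonal.antidiagonal k,
          A.charpolyRev.coeff p.1 * (A ^ (p.2 + 1)).trace = ((c p.1 * τ p.2 : ℚ) : K) := by
        intro p hp
        rw [Finset.HasAntidiagonal.mem_antidiagonal] at hp
        rw [hA, hc p.1 (by omega) K n A hA, Rat.cast_mul]
      rw [Finset.sum_congr rfl h2] at h1
      have hk : ((k : K) + 1) ≠ 0 := by exact_mod_cast Nat.succ_ne_zero k
      rw [← mul_right_inj' hk, mul_comm, h1]
      push_cast
      field_simp

end Pool.Agent.TH121.WD
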