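import Pool.Agent.TH121.WD.Ind

/-!
# Independence of `ℓ` of the Weil-Deligne representations
-/

set_option autoImplicit false

open Polynomial Module

namespace Pool.Agent.TH121.WD

variable {W : Type} [Group W] [TopologicalSpace W] {G : WeilGroup W} {Λ : Type} {K : Λ → Type}
  [∀ ℓ, Field (K ℓ)] {R : Realisations W Λ K} [∀ ℓ, CharZero (K ℓ)]

theorem of_pairs (T : ∀ ℓ, K ℓ) (h : ∀ ℓ ℓ', ∃ a : ℚ, T ℓ = a ∧ T ℓ' = a) :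
    ∃ a : ℚ, ∀ ℓ, T ℓ = a := by
  rcases isEmpty_or_nonempty Λ with he | ⟨⟨ℓ₀⟩⟩
  · exact ⟨0, fun ℓ => (he.false ℓ).elim⟩
  · obtain ⟨a, ha, -⟩ := h ℓ₀ ℓ₀
    refine ⟨a, fun ℓ => ?_⟩
    obtain ⟨b, hb1, hb2⟩ := h ℓ₀ ℓ
    have : (a : K ℓ₀) = b := by rw [← ha, hb1]
    rw [hb2, Rat.cast_injective this]

variable (hR : Motivic G R)

/-- the subgroup of inertia which acts trivially for two primes -/
def JJ (G : WeilGroup W) (R : Realisations W Λ K) (X : R.Obj) (ℓ ℓ' : Λ) : Subgroup W :=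
  G.deg.ker ⊓ ((R.ρ X ℓ).ker ⊓ (R.ρ X ℓ').ker)

omit [∀ ℓ, CharZero (K ℓ)] in
theorem mem_JJ {X : R.Obj} {ℓ ℓ' : Λ} {c : W} :
    c ∈ JJ G R X ℓ ℓ' ↔ dg G c = 0 ∧ R.ρ X ℓ c = 1 ∧ R.ρ X ℓ' c = 1 := by
  unfold JJ
  rw [Subgroup.mem_inf, Subgroup.mem_inf, MonoidHom.mem_ker, MonoidHom.mem_ker,
    MonoidHom.mem_ker, deg_eq_one_iff]

omit [∀ ℓ, CharZero (K ℓ)] in
include hR in
theorem isOpen_JJ (X : R.Obj) (ℓ ℓ' : Λ) : IsOpen (JJ G R X ℓ ℓ' : Set W) := by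
  have h := (hR.isOpen X ℓ).inter (hR.isOpen X ℓ')
  convert h using 1
  ext c
  rw [SetLike.mem_coe, mem_JJ, Set.mem_inter_iff, Set.mem_ofPred_eq, Set.mem_ofPred_eq,
    deg_eq_one_iff]
  tauto

omit [∀ ℓ, CharZero (K ℓ)] in
theorem conj_JJ {X : R.Obj} {ℓ ℓ' : Λ} (g c : W) (hc : c ∈ JJ G R X ℓ ℓ') :
    g⁻¹ * c * g ∈ JJ G R X ℓ ℓ' := by
  rw [mem_JJ] at hc ⊢
  obtain ⟨h1, h2, h3⟩ := hc
  refine ⟨by rw [dg_mul, dg_mul, h1, dg_inv]; ring, ?_, ?_⟩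
  · rw [map_mul, map_mul, h2, mul_one, ← map_mul, inv_mul_cancel, map_one]
  · rw [map_mul, map_mul, h3, mul_one, ← map_mul, inv_mul_cancel, map_one]

include hR in
/-- The traces of the elements of positive degree. -/
theorem pos_trace [IsTopologicalGroup W] (hQ : QOne' G R) (X : R.Obj) (t : ℕ) (w : W)
    (hw : 0 < dg G w) : ∃ a : ℚ, ∀ ℓ, trK hR X ℓ (t + 1) w = a := by
  refine of_pairs _ fun ℓ ℓ' => ?_
  obtain ⟨Y₀, hY₀⟩ := hR.sym X t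
  set J := JJ G R X ℓ ℓ' with hJ
  obtain ⟨n, hn⟩ := Int.eq_ofNat_of_zero_le hw.le
  have hn0 : 0 < n := by omega
  have hopen : IsOpen ((J ⊔ Subgroup.zpowers w : Subgroup W) : Set W) :=
    Subgroup.isOpen_mono (le_sup_left : J ≤ J ⊔ Subgroup.zpowers w) (isOpen_JJ hR X ℓ ℓ')
  obtain ⟨Y, hY⟩ := hR.artin Y₀ (J ⊔ Subgroup.zpowers w) hopen
    ⟨w, Subgroup.mem_sup_right (Subgroup.mem_zpowers w), fun h => by
      rw [deg_eq_one_iff] at h; omega⟩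
  obtain ⟨P, hP⟩ := hQ Y
  obtain ⟨m, rfl⟩ : ∃ m, n = m + 1 := ⟨n - 1, by omega⟩
  obtain ⟨a, ha⟩ := exists_trace P m
  have key : ∀ ℓ₁, (∀ c ∈ J, R.ρ X ℓ₁ c = 1) →
      trK hR X ℓ₁ (t + 1) w = ((a / ((m + 1 : ℕ) : ℚ) : ℚ) : K ℓ₁) := by
    intro ℓ₁ hJ1
    obtain ⟨e, h1, h2, h3, h4⟩ := hY₀ ℓ₁
    obtain ⟨e', h1', h2', h3', h4'⟩ := hY ℓ₁
    have hJ1' : ∀ c ∈ J, R.ρ Y₀ ℓ₁ c = 1 := by
      intro c hc
      refine LinearMap.ext fun v => h1 (funext fun k => ?_)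
      have h5 : (qd G c : K ℓ₁) = 1 := by
        rw [qd_eq, (mem_JJ.1 (hJ ▸ hc)).1, zpow_zero]
      rw [h3, h5, one_pow, one_smul, hJ1 c hc]
      rfl
    have h5 := trI_artin hR h1' h2' h3' h4' hn0 hn (fun g c hc => hJ ▸ conj_JJ g c (hJ ▸ hc))
      (fun c hc => (mem_JJ.1 (hJ ▸ hc)).1) hJ1' rfl
    rw [trK_sym hR h1 h2 h3 h4 w] at h5
    obtain ⟨n', A, hA1, hA2⟩ := hasFactor_traces (inv_stable hR Y ℓ₁ G.F) (hP ℓ₁)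
    have h6 := ha (K ℓ₁) n' A hA1
    rw [hA2] at h6
    have h7 : trI hR Y ℓ₁ (m + 1) = (a : K ℓ₁) := h6
    rw [h7] at h5
    have h8 : ((m + 1 : ℕ) : K ℓ₁) ≠ 0 := Nat.cast_ne_zero.2 (by omega)
    rw [Rat.cast_div, h5, Rat.cast_natCast, mul_div_cancel_left₀ _ h8]
  exact ⟨_, key ℓ fun c hc => (mem_JJ.1 (hJ ▸ hc)).2.1, key ℓ' fun c hc =>
    (mem_JJ.1 (hJ ▸ hc)).2.2⟩

end Pool.Agent.TH121.WD
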