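import Pool.Agent.TH121.WD.Defs

/-!
# The hypotheses, in terms of linear maps
-/

set_option autoImplicit false

open Polynomial

namespace Pool.Agent.TH121.WD

variable {W : Type} [Group W] [TopologicalSpace W] (G : WeilGroup W) {Λ : Type} {K : Λ → Type}
  [∀ ℓ, Field (K ℓ)] (R : Realisations W Λ K)

/-- The invariants of the inertia group in `V_ℓ^i(M)`: the elements killed by `N` and fixed by the
elements of degree zero. -/
def inv' (X : R.Obj) (ℓ : Λ) : Submodule (K ℓ) (R.V X ℓ) where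
  carrier := {v | R.N X ℓ v = 0 ∧ ∀ h, G.deg h = 1 → R.ρ X ℓ h v = v}
  add_mem' := by
    rintro v w ⟨h1, h2⟩ ⟨h3, h4⟩
    refine ⟨by rw [map_add, h1, h3, add_zero], fun h hh => by rw [map_add, h2 h hh, h4 h hh]⟩
  zero_mem' := ⟨map_zero _, fun h _ => map_zero _⟩
  smul_mem' := by
    rintro c v ⟨h1, h2⟩
    refine ⟨by rw [map_smul, h1, smul_zero], fun h hh => by rw [map_smul, h2 h hh]⟩

/-- `IsMotivic`, in terms of linear maps. -/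
structure Motivic : Prop where
  finite : ∀ X ℓ, Module.Finite (K ℓ) (R.V X ℓ)
  isOpen : ∀ X ℓ, IsOpen {w | G.deg w = 1 ∧ R.ρ X ℓ w = 1}
  N_ρ : ∀ X ℓ w v, R.N X ℓ (R.ρ X ℓ w v) =
    (qd G w : K ℓ) • R.ρ X ℓ w (R.N X ℓ v)
  sym : ∀ (X : R.Obj) (t : ℕ), ∃ Y : R.Obj, ∀ ℓ, ∃ e : R.V Y ℓ →ₗ[K ℓ] (ℕ → R.V X ℓ),
    Function.Injective e ∧ (∀ f, (∃ v, e v = f) ↔ ∀ k, t < k → f k = 0) ∧
    (∀ w v k, e (R.ρ Y ℓ w v) k = (qd G w : K ℓ) ^ k • R.ρ X ℓ w (e v k)) ∧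
    ∀ v k, e (R.N Y ℓ v) k = R.N X ℓ (e v k) + e v (k + 1)
  artin : ∀ (X : R.Obj) (U : Subgroup W), IsOpen (U : Set W) → (∃ u ∈ U, G.deg u ≠ 1) →
    ∃ Y : R.Obj, ∀ ℓ, ∃ e : R.V Y ℓ →ₗ[K ℓ] (W → R.V X ℓ),
      Function.Injective e ∧ (∀ f, (∃ v, e v = f) ↔ ∀ g, ∀ u ∈ U, f (g * u) = f g) ∧
      (∀ w v g, e (R.ρ Y ℓ w v) g = R.ρ X ℓ w (e v (w⁻¹ * g))) ∧
      ∀ v g, e (R.N Y ℓ v) g = R.N X ℓ (e v g)

section

variable [∀ ℓ, CharZero (K ℓ)]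

/-- `QOne` -/
def QOne' : Prop :=
  ∀ X : R.Obj, ∃ P : ℚ[X], ∀ ℓ,
    HasFactor (inv' G R X ℓ) (R.ρ X ℓ G.F) (P.map (algebraMap ℚ (K ℓ)))

/-- `Compatible` -/
def Compatible' : Prop :=
  ∀ (X : R.Obj) (t : ℕ) (w : W), ∃ a : ℚ, ∀ ℓ,
    HasTrace (LinearMap.ker (R.N X ℓ ^ t)) (R.ρ X ℓ w) (a : K ℓ)

theorem qOne_iff : QOne G R ↔ QOne' G R := Iff.rfl

theorem compatible_iff : Compatible R ↔ Compatible' R := Iff.rfl

end

variable {G R}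

theorem IsMotivic.motivic (hR : IsMotivic G R) : Motivic G R where
  finite := hR.finite
  isOpen := by
    intro X ℓ
    convert hR.isOpen X ℓ using 1
    ext w
    exact ⟨fun h => ⟨h.1, fun v => by change R.ρ X ℓ w v = v; rw [h.2]; rfl⟩,
      fun h => ⟨h.1, LinearMap.ext fun v => h.2 v⟩⟩
  N_ρ := hR.N_act
  sym := by
    intro X t
    obtain ⟨Y, hY⟩ := hR.sym X t
    refine ⟨Y, fun ℓ => ?_⟩
    obtain ⟨e, he⟩ := hY ℓ
    refine ⟨⟨⟨e, fun v w => funext fun s => he.isLin.1 v w s⟩,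
      fun c v => funext fun s => he.isLin.2 c v s⟩, he.injective, he.range, he.act, he.nil⟩
  artin := by
    intro X U h1 h2
    obtain ⟨Y, hY⟩ := hR.artin X U h1 h2
    refine ⟨Y, fun ℓ => ?_⟩
    obtain ⟨e, he⟩ := hY ℓ
    refine ⟨⟨⟨e, fun v w => funext fun s => he.isLin.1 v w s⟩,
      fun c v => funext fun s => he.isLin.2 c v s⟩, he.injective, he.range, he.act, he.nil⟩

end Pool.Agent.TH121.WD
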